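import Mathlib

set_option autoImplicit false

namespace Pool.Agent.Results.MP_da15bd_co.Threshold

open Finset

/-- `Forcing n d m` says: for every `A ⊆ 𝔽₂ⁿ` with at least `m` elements and every polynomial `p` of
total degree at most `d` vanishing at all sums `a + b` with `a, b ∈ A` distinct, `p(0) = 0`. -/
def Forcing (n d m : ℕ) : Prop :=
  ∀ A : Finset (Fin n → ZMod 2), m ≤ A.card →
    ∀ p : MvPolynomial (Fin n) (ZMod 2), p.totalDegree ≤ d →
      (∀ a ∈ A, ∀ b ∈ A, a ≠ b → MvPolynomial.eval (a + b) p = 0) →
      MvPolynomial.eval 0 p = 0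

/-- The threshold `N(n,d)`: the least `m` with `Forcing n d m`. -/
noncomputable def N (n d : ℕ) : ℕ := sInf {m : ℕ | Forcing n d m}

/-- `S n r` is the number of subsets of an `n`-set with at most `r` elements. -/
def S (n r : ℕ) : ℕ := ∑ i ∈ range (r + 1), n.choose i

/-- `T n d = ∑_{2i ≤ d} C(n,i) + ∑_{2i < d} C(n,i)`. -/
def T (n d : ℕ) : ℕ := (∑ i ∈ range (d / 2 + 1), n.choose i) + ∑ i ∈ range ((d + 1) / 2), n.choose i

theorem card_small_sets (n r : ℕ) :
    ((univ : Finset (Finset (Fin n))).filter (fun T => T.card ≤ r)).card = S n r := by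
  rw [card_eq_sum_card_fiberwise (f := Finset.card) (t := range (r + 1))]
  · apply sum_congr rfl
    intro i hi
    have h1 : ((univ : Finset (Finset (Fin n))).filter (fun T => T.card ≤ r)).filter
        (fun T => T.card = i) = powersetCard i univ := by
      ext T
      simp only [mem_filter, mem_univ, true_and, mem_powersetCard, subset_univ]
      constructor
      · exact fun h => h.2
      · intro h
        exact ⟨by rw [h]; exact Nat.lt_succ_iff.mp (mem_range.mp hi), h⟩
    rw [h1, card_powersetCard, card_univ, Fintype.card_fin]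
  · intro T hT
    simp only [coe_filter, mem_univ, true_and, Set.mem_ofPred_eq] at hT
    rw [mem_coe, mem_range]
    omega

/-- The monomial function `x ↦ ∏_{i ∈ T} x_i`. -/
def mono {n : ℕ} (T : Finset (Fin n)) (x : Fin n → ZMod 2) : ZMod 2 := ∏ i ∈ T, x i

theorem zmod2_pow (x : ZMod 2) (k : ℕ) (hk : k ≠ 0) : x ^ k = x := by
  revert x
  rw [← Nat.succ_pred_eq_of_ne_zero hk]
  generalize k.pred = j
  induction j with
  | zero => intro x; simp
  | succ j ih =>
    intro x
    rw [pow_succ, ih]
    revert x
    decide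

theorem eval_mono {n : ℕ} (e : Fin n →₀ ℕ) (x : Fin n → ZMod 2) :
    ∏ i, x i ^ e i = mono e.support x := by
  unfold mono
  rw [← prod_subset (subset_univ e.support)]
  · apply prod_congr rfl
    intro i hi
    exact zmod2_pow _ _ (Finsupp.mem_support_iff.mp hi)
  · intro i _ hi
    rw [Finsupp.notMem_support_iff.mp hi, pow_zero]

theorem mono_add {n : ℕ} (U : Finset (Fin n)) (a b : Fin n → ZMod 2) :
    mono U (a + b) = ∑ T ∈ U.powerset, mono T a * mono (U \ T) b := by
  unfold mono
  simp only [Pi.add_apply]
  rw [prod_add]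

theorem eval_add {n : ℕ} (p : MvPolynomial (Fin n) (ZMod 2)) (a b : Fin n → ZMod 2) :
    MvPolynomial.eval (a + b) p =
      ∑ e ∈ p.support, p.coeff e * ∑ T ∈ e.support.powerset, mono T a * mono (e.support \ T) b := by
  rw [MvPolynomial.eval_eq']
  apply sum_congr rfl
  intro e _
  rw [eval_mono, mono_add]

theorem card_support_le {n d : ℕ} (p : MvPolynomial (Fin n) (ZMod 2)) (hp : p.totalDegree ≤ d)
    (e : Fin n →₀ ℕ) (he : e ∈ p.support) : e.support.card ≤ d := by
  have h1 : e.support.card ≤ ∑ i ∈ e.support, e i := by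
    rw [card_eq_sum_ones]
    apply sum_le_sum
    intro i hi
    have := Finsupp.mem_support_iff.mp hi
    omega
  have h2 : (∑ i ∈ e.support, e i) ≤ p.totalDegree := MvPolynomial.le_totalDegree he
  omega

theorem split_sum {n d : ℕ} (U : Finset (Fin n)) (hU : U.card ≤ d) (c : ZMod 2)
    (a b : Fin n → ZMod 2) :
    (∑ T ∈ (univ : Finset (Finset (Fin n))).filter (fun T => 2 * T.card ≤ d),
      mono T a * (if T ⊆ U then c * mono (U \ T) b else 0)) +
    (∑ T ∈ (univ : Finset (Finset (Fin n))).filter (fun T => 2 * T.card < d),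
      (if T ⊆ U ∧ d < 2 * (U \ T).card then c * mono (U \ T) a else 0) * mono T b) =
    c * ∑ T ∈ U.powerset, mono T a * mono (U \ T) b := by
  classical
  rw [← sum_filter_add_sum_filter_not U.powerset (fun T => 2 * T.card ≤ d), mul_add]
  congr 1
  · rw [mul_sum]
    have h1 : ∀ T ∈ (univ : Finset (Finset (Fin n))).filter (fun T => 2 * T.card ≤ d),
        mono T a * (if T ⊆ U then c * mono (U \ T) b else 0) =
        if T ⊆ U then c * (mono T a * mono (U \ T) b) else 0 := by
      intro T _
      split_ifs
      · ring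
      · ring
    rw [sum_congr rfl h1, ← sum_filter]
    apply sum_congr
    · ext T
      simp only [mem_filter, mem_univ, true_and, mem_powerset]
      tauto
    · intro T _
      rfl
  · rw [mul_sum]
    have h1 : ∀ T ∈ (univ : Finset (Finset (Fin n))).filter (fun T => 2 * T.card < d),
        (if T ⊆ U ∧ d < 2 * (U \ T).card then c * mono (U \ T) a else 0) * mono T b =
        if T ⊆ U ∧ d < 2 * (U \ T).card then c * (mono (U \ T) a * mono T b) else 0 := by
      intro T _
      split_ifs
      · ring
      · ring
    rw [sum_congr rfl h1, ← sum_filter]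
    apply sum_nbij' (fun T => U \ T) (fun T => U \ T)
    · intro T hT
      simp only [mem_filter, mem_univ, true_and, mem_powerset] at hT ⊢
      exact ⟨sdiff_subset, by omega⟩
    · intro T hT
      simp only [mem_filter, mem_univ, true_and, mem_powerset] at hT ⊢
      have h2 : (U \ T).card = U.card - T.card := card_sdiff_of_subset hT.1
      have h3 : U \ (U \ T) = T := by
        rw [sdiff_sdiff_right_self]
        exact inf_eq_right.mpr hT.1
      have h4 : T.card ≤ U.card := card_le_card hT.1
      rw [h3]
      refine ⟨by omega, sdiff_subset, by omega⟩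
    · intro T hT
      simp only [mem_filter, mem_univ, true_and] at hT
      rw [sdiff_sdiff_right_self]
      exact inf_eq_right.mpr hT.2.1
    · intro T hT
      simp only [mem_filter, mem_powerset] at hT
      rw [sdiff_sdiff_right_self]
      exact inf_eq_right.mpr hT.1
    · intro T hT
      simp only [mem_filter, mem_univ, true_and] at hT
      have h3 : U \ (U \ T) = T := by
        rw [sdiff_sdiff_right_self]
        exact inf_eq_right.mpr hT.2.1
      rw [h3]

/-- The rank bound: a set on which `p(a+b)` is a nonzero multiple of the identity matrix is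
small. -/
theorem rank_bound {n d : ℕ} (A : Finset (Fin n → ZMod 2)) (p : MvPolynomial (Fin n) (ZMod 2))
    (hp : p.totalDegree ≤ d)
    (hA : ∀ a ∈ A, ∀ b ∈ A, a ≠ b → MvPolynomial.eval (a + b) p = 0)
    (h0 : MvPolynomial.eval 0 p ≠ 0) :
    A.card ≤ ((univ : Finset (Finset (Fin n))).filter (fun T => 2 * T.card ≤ d)).card +
      ((univ : Finset (Finset (Fin n))).filter (fun T => 2 * T.card < d)).card := by
  classical
  obtain ⟨F₁, hF₁⟩ : ∃ F : Finset (Finset (Fin n)), F = univ.filter (fun T => 2 * T.card ≤ d) :=
    ⟨_, rfl⟩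
  obtain ⟨F₂, hF₂⟩ : ∃ F : Finset (Finset (Fin n)), F = univ.filter (fun T => 2 * T.card < d) :=
    ⟨_, rfl⟩
  rw [← hF₁, ← hF₂]
  let L : Matrix A (F₁ ⊕ F₂) (ZMod 2) := fun a w =>
    match w with
    | Sum.inl T => mono T.1 a.1
    | Sum.inr T => ∑ e ∈ p.support,
        if T.1 ⊆ e.support ∧ d < 2 * (e.support \ T.1).card then
          p.coeff e * mono (e.support \ T.1) a.1 else 0
  let R : Matrix (F₁ ⊕ F₂) A (ZMod 2) := fun w b =>
    match w with
    | Sum.inl T => ∑ e ∈ p.support,
        if T.1 ⊆ e.support then p.coeff e * mono (e.support \ T.1) b.1 else 0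
    | Sum.inr T => mono T.1 b.1
  have hLR : L * R = Matrix.of (fun a b : A => MvPolynomial.eval (a.1 + b.1) p) := by
    ext a b
    rw [Matrix.mul_apply, Fintype.sum_sum_type, Matrix.of_apply, eval_add]
    simp only [L, R]
    have e1 := sum_coe_sort F₁
      (fun T => mono T a.1 * ∑ e ∈ p.support,
        if T ⊆ e.support then p.coeff e * mono (e.support \ T) b.1 else 0)
    have e2 := sum_coe_sort F₂
      (fun T => (∑ e ∈ p.support,
        if T ⊆ e.support ∧ d < 2 * (e.support \ T).card then
          p.coeff e * mono (e.support \ T) a.1 else 0) * mono T b.1)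
    rw [e1, e2]
    simp only [mul_sum, sum_mul]
    rw [sum_comm, sum_comm (s := F₂), ← sum_add_distrib]
    apply sum_congr rfl
    intro e he
    rw [hF₁, hF₂, split_sum e.support (card_support_le p hp e he) (p.coeff e) a.1 b.1, mul_sum]
  have hid : Matrix.of (fun a b : A => MvPolynomial.eval (a.1 + b.1) p) = 1 := by
    ext a b
    rw [Matrix.of_apply, Matrix.one_apply]
    split_ifs with h
    · subst h
      have h1 : a.1 + a.1 = 0 := by
        funext i
        have : ∀ x : ZMod 2, x + x = 0 := by decide
        exact this _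
      rw [h1]
      revert h0
      generalize MvPolynomial.eval 0 p = z
      revert z
      decide
    · exact hA a.1 a.2 b.1 b.2 (fun h' => h (Subtype.ext h'))
  have hrank : (L * R).rank = A.card := by
    rw [hLR, hid, Matrix.rank_one, Fintype.card_coe]
  have h1 : (L * R).rank ≤ Fintype.card (F₁ ⊕ F₂) :=
    (Matrix.rank_mul_le_left L R).trans (Matrix.rank_le_card_width L)
  rwa [hrank, Fintype.card_sum, Fintype.card_coe, Fintype.card_coe] at h1

/-- The support of a vector. -/
def supp {n : ℕ} (x : Fin n → ZMod 2) : Finset (Fin n) := univ.filter (fun i => x i ≠ 0)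

/-- The sum of all squarefree monomials of degree at most `d`. -/
noncomputable def p0 (n d : ℕ) : MvPolynomial (Fin n) (ZMod 2) :=
  ∑ T ∈ (univ : Finset (Finset (Fin n))).filter (fun T => T.card ≤ d), ∏ i ∈ T, MvPolynomial.X i

theorem p0_degree (n d : ℕ) : (p0 n d).totalDegree ≤ d := by
  unfold p0
  apply (MvPolynomial.totalDegree_finsetSum _ _).trans
  apply Finset.sup_le
  intro T hT
  apply (MvPolynomial.totalDegree_finsetProd _ _).trans
  calc ∑ i ∈ T, (MvPolynomial.X i : MvPolynomial (Fin n) (ZMod 2)).totalDegree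
      ≤ ∑ _i ∈ T, 1 := sum_le_sum (fun i _ => (MvPolynomial.totalDegree_X i).le)
    _ = T.card := by simp
    _ ≤ d := (mem_filter.mp hT).2

theorem p0_eval (n d : ℕ) (x : Fin n → ZMod 2) (hx : (supp x).card ≤ d) :
    MvPolynomial.eval x (p0 n d) = (2 : ZMod 2) ^ (supp x).card := by
  classical
  unfold p0
  rw [map_sum]
  simp only [map_prod, MvPolynomial.eval_X]
  have h1 : ∀ T : Finset (Fin n), ∏ i ∈ T, x i = if T ⊆ supp x then 1 else 0 := by
    intro T
    split_ifs with h
    · apply prod_eq_one
      intro i hi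
      have h2 : x i ≠ 0 := (mem_filter.mp (h hi)).2
      revert h2
      generalize x i = z
      revert z
      decide
    · rw [not_subset] at h
      obtain ⟨i, hi, hi'⟩ := h
      apply prod_eq_zero hi
      by_contra h2
      exact hi' (mem_filter.mpr ⟨mem_univ _, h2⟩)
  rw [sum_congr rfl (fun T _ => h1 T), ← sum_filter, sum_const, nsmul_one]
  have h3 : ((univ : Finset (Finset (Fin n))).filter (fun T => T.card ≤ d)).filter
      (fun T => T ⊆ supp x) = (supp x).powerset := by
    ext T
    simp only [mem_filter, mem_univ, true_and, mem_powerset]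
    constructor
    · exact fun h => h.2
    · exact fun h => ⟨(card_le_card h).trans hx, h⟩
  rw [h3, card_powerset]
  push_cast
  rfl

theorem supp_zero (n : ℕ) : supp (0 : Fin n → ZMod 2) = ∅ := by
  unfold supp
  simp

theorem p0_zero (n d : ℕ) : MvPolynomial.eval 0 (p0 n d) = 1 := by
  rw [p0_eval n d 0 (by rw [supp_zero]; simp), supp_zero]
  simp

theorem p0_vanish (n d : ℕ) (x : Fin n → ZMod 2) (hx : (supp x).card ≤ d) (h0 : x ≠ 0) :
    MvPolynomial.eval x (p0 n d) = 0 := by
  rw [p0_eval n d x hx]
  have h1 : (supp x).card ≠ 0 := by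
    intro h
    rw [card_eq_zero] at h
    apply h0
    funext i
    by_contra hi
    have : i ∈ supp x := mem_filter.mpr ⟨mem_univ _, hi⟩
    rw [h] at this
    exact notMem_empty _ this
  have h2 : (2 : ZMod 2) = 0 := by decide
  rw [h2, zero_pow h1]

/-- A set with all pairwise sums of weight at most `d` refutes `Forcing`. -/
theorem not_forcing {n d m : ℕ} (A : Finset (Fin n → ZMod 2)) (hm : m ≤ A.card)
    (hA : ∀ a ∈ A, ∀ b ∈ A, (supp (a + b)).card ≤ d) : ¬ Forcing n d m := by
  intro h
  have h1 := h A hm (p0 n d) (p0_degree n d) (fun a ha b hb hab => p0_vanish n d _ (hA a ha b hb)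
    (fun h0 => hab (by
      funext i
      have h2 := congrFun h0 i
      have h3 : ∀ x y : ZMod 2, x + y = 0 → x = y := by decide
      exact h3 _ _ h2)))
  rw [p0_zero] at h1
  exact one_ne_zero h1

/-- The indicator vector of a set. -/
def ind {n : ℕ} (T : Finset (Fin n)) : Fin n → ZMod 2 := fun i => if i ∈ T then 1 else 0

theorem supp_ind_add {n : ℕ} (T T' : Finset (Fin n)) : supp (ind T + ind T') ⊆ T ∪ T' := by
  intro i hi
  have h1 := (mem_filter.mp hi).2
  rw [mem_union]
  by_contra h
  push Not at h
  apply h1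
  simp [ind, h.1, h.2]

theorem ind_injective (n : ℕ) : Function.Injective (ind (n := n)) := by
  intro T T' h
  ext i
  have h1 := congrFun h i
  unfold ind at h1
  by_cases h2 : i ∈ T <;> by_cases h3 : i ∈ T' <;> simp_all

theorem forcing_mono {n d m m' : ℕ} (h : Forcing n d m) (hm : m ≤ m') : Forcing n d m' :=
  fun A hA => h A (hm.trans hA)

/-- The rank bound makes `Forcing` true. -/
theorem forcing_upper (n d : ℕ) : Forcing n d
    (((univ : Finset (Finset (Fin n))).filter (fun T => 2 * T.card ≤ d)).card +
      ((univ : Finset (Finset (Fin n))).filter (fun T => 2 * T.card < d)).card + 1) := by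
  intro A hA p hp hv
  by_contra h0
  have := rank_bound A p hp hv h0
  omega

theorem N_le {n d m : ℕ} (h : Forcing n d m) : N n d ≤ m := Nat.sInf_le h

theorem N_spec (n d : ℕ) : Forcing n d (N n d) := Nat.sInf_mem (s := {m | Forcing n d m})
  ⟨_, forcing_upper n d⟩

theorem lt_N {n d m : ℕ} (h : ¬ Forcing n d m) : m < N n d := by
  by_contra h1
  exact h (forcing_mono (N_spec n d) (not_lt.mp h1))

/-- Lower bound from the Hamming ball. -/
theorem lower_even (n r d : ℕ) (hd : 2 * r ≤ d) : S n r < N n d := by
  classical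
  apply lt_N
  apply not_forcing (((univ : Finset (Finset (Fin n))).filter (fun T => T.card ≤ r)).image ind)
  · rw [card_image_of_injective _ (ind_injective n), card_small_sets]
  · intro a ha b hb
    obtain ⟨T, hT, rfl⟩ := mem_image.mp ha
    obtain ⟨T', hT', rfl⟩ := mem_image.mp hb
    have h1 := (mem_filter.mp hT).2
    have h2 := (mem_filter.mp hT').2
    have h3 := card_le_card (supp_ind_add T T')
    have h4 := card_union_le T T'
    omega

/-- Lower bound from a prism over a Hamming ball. -/
theorem lower_odd (n r d : ℕ) (hd : 2 * r + 1 ≤ d) : 2 * S n r < N (n + 1) d := by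
  classical
  apply lt_N
  let f : ZMod 2 × Finset (Fin n) → (Fin (n + 1) → ZMod 2) := fun w => Fin.cons w.1 (ind w.2)
  have hf : Function.Injective f := by
    intro w w' h
    have h1 := Fin.cons_injective2 h
    exact Prod.ext h1.1 (ind_injective n h1.2)
  apply not_forcing (((univ : Finset (ZMod 2)) ×ˢ
    ((univ : Finset (Finset (Fin n))).filter (fun T => T.card ≤ r))).image f)
  · rw [card_image_of_injective _ hf, card_product, card_small_sets, card_univ, ZMod.card]
  · intro a ha b hb
    obtain ⟨w, hw, rfl⟩ := mem_image.mp ha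
    obtain ⟨w', hw', rfl⟩ := mem_image.mp hb
    have h1 := (mem_filter.mp (mem_product.mp hw).2).2
    have h2 := (mem_filter.mp (mem_product.mp hw').2).2
    have h3 : supp (f w + f w') ⊆ insert 0 ((w.2 ∪ w'.2).map (Fin.succEmb n)) := by
      intro i
      refine Fin.cases ?_ ?_ i
      · intro _
        exact mem_insert_self _ _
      · intro j hj
        have h4 := (mem_filter.mp hj).2
        have h5 : j ∈ supp (ind w.2 + ind w'.2) := mem_filter.mpr ⟨mem_univ _, by
          simpa [f] using h4⟩
        apply mem_insert_of_mem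
        rw [mem_map]
        exact ⟨j, supp_ind_add _ _ h5, rfl⟩
    have h5 := card_le_card h3
    have h6 := card_insert_le (0 : Fin (n + 1)) ((w.2 ∪ w'.2).map (Fin.succEmb n))
    rw [card_map] at h6
    have h7 := card_union_le w.2 w'.2
    omega

theorem S_mono {n r r' : ℕ} (h : r ≤ r') : S n r ≤ S n r' := by
  unfold S
  apply sum_le_sum_of_subset
  exact range_subset_range.mpr (by omega)

theorem even_choose : ∀ k d m : ℕ, d < 2 ^ k → m % 2 ^ k < d → 2 ∣ m.choose d := by
  intro k
  induction k with
  | zero =>
    intro d m hd hm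
    simp at hd
    omega
  | succ k ih =>
    intro d m hd hm
    have h1 := Choose.choose_modEq_choose_mod_mul_choose_div_nat (p := 2) (n := m) (k := d)
    rw [← Nat.modEq_zero_iff_dvd]
    apply h1.trans
    rw [Nat.modEq_zero_iff_dvd]
    rcases Nat.mod_two_eq_zero_or_one m with h2 | h2 <;>
    rcases Nat.mod_two_eq_zero_or_one d with h3 | h3
    · rw [h2, h3, Nat.choose_self, one_mul]
      apply ih
      · rw [pow_succ] at hd; omega
      · have h4 : m % 2 ^ (k + 1) = 2 * (m / 2 % 2 ^ k) + m % 2 := by
          rw [pow_succ', Nat.mod_mul]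
          ring
        omega
    · rw [h2, h3]
      simp
    · rw [h2, h3, Nat.choose_zero_right, one_mul]
      apply ih
      · rw [pow_succ] at hd; omega
      · have h4 : m % 2 ^ (k + 1) = 2 * (m / 2 % 2 ^ k) + m % 2 := by
          rw [pow_succ', Nat.mod_mul]
          ring
        omega
    · rw [h2, h3, Nat.choose_self, one_mul]
      apply ih
      · rw [pow_succ] at hd; omega
      · have h4 : m % 2 ^ (k + 1) = 2 * (m / 2 % 2 ^ k) + m % 2 := by
          rw [pow_succ', Nat.mod_mul]
          ring
        omega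

theorem partial_sum_choose (m d : ℕ) :
    ((∑ i ∈ range (d + 1), (m + 1).choose i : ℕ) : ZMod 2) = (m.choose d : ZMod 2) := by
  induction d with
  | zero => simp
  | succ d ih =>
    rw [sum_range_succ, Nat.cast_add, ih, Nat.choose_succ_succ, Nat.cast_add, ← add_assoc]
    have : ∀ x : ZMod 2, x + x = 0 := by decide
    rw [this, zero_add]

/-- Value of the polynomial `p0` at a vector of arbitrary weight. -/
theorem p0_eval' (n d : ℕ) (x : Fin n → ZMod 2) :
    MvPolynomial.eval x (p0 n d) = ((∑ i ∈ range (d + 1), (supp x).card.choose i : ℕ) : ZMod 2) := by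
  classical
  unfold p0
  rw [map_sum]
  simp only [map_prod, MvPolynomial.eval_X]
  have h1 : ∀ T : Finset (Fin n), ∏ i ∈ T, x i = if T ⊆ supp x then 1 else 0 := by
    intro T
    split_ifs with h
    · apply prod_eq_one
      intro i hi
      have h2 : x i ≠ 0 := (mem_filter.mp (h hi)).2
      revert h2
      generalize x i = z
      revert z
      decide
    · rw [not_subset] at h
      obtain ⟨i, hi, hi'⟩ := h
      apply prod_eq_zero hi
      by_contra h2
      exact hi' (mem_filter.mpr ⟨mem_univ _, h2⟩)
  rw [sum_congr rfl (fun T _ => h1 T), ← sum_filter, sum_const, nsmul_one]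
  congr 1
  rw [card_eq_sum_card_fiberwise (f := Finset.card) (t := range (d + 1))]
  · apply sum_congr rfl
    intro i hi
    have h2 : (((univ : Finset (Finset (Fin n))).filter (fun T => T.card ≤ d)).filter
        (fun T => T ⊆ supp x)).filter (fun T => T.card = i) = powersetCard i (supp x) := by
      ext T
      simp only [mem_filter, mem_univ, true_and, mem_powersetCard]
      constructor
      · exact fun h => ⟨h.1.2, h.2⟩
      · intro h
        have := mem_range.mp hi
        exact ⟨⟨by omega, h.1⟩, h.2⟩
    rw [h2, card_powersetCard]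
  · intro T hT
    rw [mem_coe, mem_filter, mem_filter] at hT
    rw [mem_coe, mem_range]
    omega

theorem p0_vanish' (n d k : ℕ) (hk : d < 2 ^ k) (hn : n ≡ d [MOD 2 ^ k]) (hdn : d < n)
    (x : Fin n → ZMod 2) (h1 : 1 ≤ (supp x).card)
    (h2 : (supp x).card ≤ d ∨ n + 1 ≤ (supp x).card + d) :
    MvPolynomial.eval x (p0 n d) = 0 := by
  rw [p0_eval']
  obtain ⟨m, hm⟩ : ∃ m, (supp x).card = m + 1 := ⟨(supp x).card - 1, by omega⟩
  rw [hm, partial_sum_choose]
  rw [hm] at h2
  have h3 : (supp x).card ≤ n := by
    have := card_le_univ (supp x)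
    rwa [Fintype.card_fin] at this
  rw [hm] at h3
  rcases h2 with h | h
  · rw [Nat.choose_eq_zero_of_lt (by omega)]
    simp
  · have h4 : 2 ∣ m.choose d := by
      apply even_choose k d m hk
      have h5 : 2 ^ k ∣ n - d := (Nat.modEq_iff_dvd' hdn.le).mp hn.symm
      obtain ⟨q, hq⟩ := h5
      have h6 : m = (m - (n - d)) + 2 ^ k * q := by omega
      rw [h6, Nat.add_mul_mod_self_left, Nat.mod_eq_of_lt (by omega)]
      omega
    exact (ZMod.natCast_eq_zero_iff _ _).mpr h4

theorem supp_ind_add' {n : ℕ} (T T' : Finset (Fin n)) :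
    supp (ind T + ind T') = (T \ T') ∪ (T' \ T) := by
  ext i
  unfold supp ind
  rw [mem_filter, mem_union, mem_sdiff, mem_sdiff]
  simp only [mem_univ, true_and, Pi.add_apply]
  by_cases h1 : i ∈ T <;> by_cases h2 : i ∈ T'
  · simp only [h1, h2, if_true]; decide
  · simp [h1, h2]
  · simp [h1, h2]
  · simp [h1, h2]

/-- The lower bound in the residue class `n ≡ d (mod 2^k)`: a Hamming ball together with an
antipodal Hamming ball. -/
theorem lower_exact (n d k : ℕ) (hdn : d < n) (hk : d < 2 ^ k) (hn : n ≡ d [MOD 2 ^ k]) :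
    ((univ : Finset (Finset (Fin n))).filter (fun T => 2 * T.card ≤ d)).card +
      ((univ : Finset (Finset (Fin n))).filter (fun T => 2 * T.card < d)).card < N n d := by
  classical
  apply lt_N
  intro hF
  set F₁ := (univ : Finset (Finset (Fin n))).filter (fun T => 2 * T.card ≤ d) with hF₁
  set F₂ := (univ : Finset (Finset (Fin n))).filter (fun T => 2 * T.card < d) with hF₂
  have hcompl : ∀ T : Finset (Fin n), Tᶜ.card = n - T.card := by
    intro T
    rw [card_compl, Fintype.card_fin]
  have hle : ∀ T : Finset (Fin n), T.card ≤ n := by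
    intro T
    have := card_le_univ T
    rwa [Fintype.card_fin] at this
  let F := F₁ ∪ F₂.image (fun T => Tᶜ)
  have hmem : ∀ T ∈ F, 2 * T.card ≤ d ∨ 2 * (n - T.card) < d := by
    intro T hT
    rcases mem_union.mp hT with h | h
    · left
      exact (mem_filter.mp h).2
    · right
      obtain ⟨T', hT', rfl⟩ := mem_image.mp h
      have h1 := (mem_filter.mp hT').2
      have h2 := hcompl T'
      have h3 := hle T'
      omega
  have hdisj : Disjoint F₁ (F₂.image (fun T => Tᶜ)) := by
    rw [disjoint_left]
    intro T h1 h2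
    have h3 := (mem_filter.mp h1).2
    obtain ⟨T', hT', rfl⟩ := mem_image.mp h2
    have h4 := (mem_filter.mp hT').2
    have h5 := hcompl T'
    have h6 := hle T'
    omega
  have hcard : F.card = F₁.card + F₂.card := by
    rw [card_union_of_disjoint hdisj, card_image_of_injective _ compl_injective]
  have h := hF (F.image ind) (by rw [card_image_of_injective _ (ind_injective n), hcard])
    (p0 n d) (p0_degree n d) (by
      intro a ha b hb hab
      obtain ⟨T, hT, rfl⟩ := mem_image.mp ha
      obtain ⟨T', hT', rfl⟩ := mem_image.mp hb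
      have hne : T ≠ T' := fun h => hab (by rw [h])
      have hsd : (supp (ind T + ind T')).card = (T \ T').card + (T' \ T).card := by
        rw [supp_ind_add', card_union_of_disjoint]
        rw [disjoint_left]
        intro i hi hi'
        exact (mem_sdiff.mp hi).2 (mem_sdiff.mp hi').1
      have e1 := card_sdiff_add_card_inter T T'
      have e2 := card_sdiff_add_card_inter T' T
      have e3 : (T ∩ T').card = (T' ∩ T).card := by rw [inter_comm]
      have e4 := card_union_add_card_inter T T'
      have e5 := hle (T ∪ T')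
      have hpos : 1 ≤ (supp (ind T + ind T')).card := by
        rw [hsd]
        by_contra h0
        have h1 : (T \ T').card = 0 := by omega
        have h2 : (T' \ T).card = 0 := by omega
        rw [card_eq_zero, sdiff_eq_empty_iff_subset] at h1 h2
        exact hne (subset_antisymm h1 h2)
      apply p0_vanish' n d k hk hn hdn _ hpos
      rw [hsd]
      have := hmem T hT
      have := hmem T' hT'
      have := hle T
      have := hle T'
      omega)
  rw [p0_zero] at h
  exact one_ne_zero h

theorem card_small_sets' (n d : ℕ) :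
    ((univ : Finset (Finset (Fin n))).filter (fun T => 2 * T.card ≤ d)).card =
      ∑ i ∈ range (d / 2 + 1), n.choose i := by
  rw [← S, ← card_small_sets]
  congr 1
  ext T
  simp only [mem_filter, mem_univ, true_and]
  omega

theorem card_small_sets'' (n d : ℕ) :
    ((univ : Finset (Finset (Fin n))).filter (fun T => 2 * T.card < d)).card =
      ∑ i ∈ range ((d + 1) / 2), n.choose i := by
  rcases Nat.eq_zero_or_pos d with h | h
  · subst h
    simp
  · have h1 : (d + 1) / 2 = (d - 1) / 2 + 1 := by omega
    rw [h1, ← S, ← card_small_sets]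
    congr 1
    ext T
    simp only [mem_filter, mem_univ, true_and]
    omega

theorem pascal_sum (m r : ℕ) : (∑ i ∈ range (r + 1), m.choose i) + ∑ i ∈ range r, m.choose i =
    ∑ i ∈ range (r + 1), (m + 1).choose i := by
  induction r with
  | zero => simp
  | succ r ih =>
    rw [sum_range_succ _ (r + 1), sum_range_succ (fun i => (m + 1).choose i) (r + 1), ← ih,
      sum_range_succ (fun i => m.choose i) r, Nat.choose_succ_succ]
    ring

/-- The lower bound `T (n-1) d < N n d`. -/
theorem lower (m d : ℕ) : T m d < N (m + 1) d := by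
  rcases Nat.even_or_odd' d with ⟨r, h | h⟩
  · subst h
    have h1 : T m (2 * r) = S (m + 1) r := by
      unfold T S
      rw [show 2 * r / 2 = r by omega, show (2 * r + 1) / 2 = r by omega, pascal_sum]
    rw [h1]
    exact lower_even (m + 1) r (2 * r) le_rfl
  · subst h
    have h1 : T m (2 * r + 1) = 2 * S m r := by
      unfold T S
      rw [show (2 * r + 1) / 2 = r by omega, show (2 * r + 1 + 1) / 2 = r + 1 by omega]
      ring
    rw [h1]
    exact lower_odd m r (2 * r + 1) le_rfl

theorem sum_choose_le (m r : ℕ) : ∑ i ∈ range r, (m + 1).choose i ≤ 2 * ∑ i ∈ range r, m.choose i := by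
  rcases r with _ | r
  · simp
  · rw [← pascal_sum]
    have : ∑ i ∈ range r, m.choose i ≤ ∑ i ∈ range (r + 1), m.choose i :=
      sum_le_sum_of_subset (range_subset_range.mpr (Nat.le_succ r))
    omega

theorem T_le (m d : ℕ) : T (m + 1) d ≤ 2 * T m d := by
  unfold T
  have h1 := sum_choose_le m (d / 2 + 1)
  have h2 := sum_choose_le m ((d + 1) / 2)
  omega

/-- For all `0 ≤ d < n`, `T(n-1,d) + 1 ≤ N(n,d) ≤ T(n,d) + 1`, where `T(n,d) ≤ 2 T(n-1,d)`, so the
two bounds differ by at most a factor of two; and the upper bound is the exact value whenever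
`n ≡ d (mod 2^k)` for some `k` with `2^k > d`. -/
theorem result (n d : ℕ) (hd : d < n) :
    T (n - 1) d + 1 ≤ N n d ∧ N n d ≤ T n d + 1 ∧ T n d ≤ 2 * T (n - 1) d ∧
    ∀ k : ℕ, d < 2 ^ k → n ≡ d [MOD 2 ^ k] → N n d = T n d + 1 := by
  have hupper : N n d ≤ T n d + 1 := by
    have := N_le (forcing_upper n d)
    rwa [card_small_sets', card_small_sets''] at this
  obtain ⟨m, rfl⟩ : ∃ m, n = m + 1 := ⟨n - 1, by omega⟩
  refine ⟨lower m d, hupper, T_le m d, ?_⟩
  intro k hk hn
  have := lower_exact (m + 1) d k hd hk hn
  rw [card_small_sets', card_small_sets''] at this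
  change T (m + 1) d < N (m + 1) d at this
  omega

end Pool.Agent.Results.MP_da15bd_co.Threshold
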